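import Pool.Agent.Y768.UG.Defs

/-!
# Connected vertex sets in subdivisions
-/

namespace Pool.Agent.Y768.UG

variable {W : Type} [LinearOrder W] {Y : SimpleGraph W} {n : Edge Y → ℕ}

theorem pathVertex_zero (e : Edge Y) : pathVertex Y n e 0 = Sum.inl e.1.1 := rfl

theorem pathVertex_inner (e : Edge Y) (i : Fin (n e)) :
    pathVertex Y n e (i + 1) = Sum.inr ⟨e, i⟩ := by
  simp [pathVertex]

theorem pathVertex_last (e : Edge Y) : pathVertex Y n e (n e + 1) = Sum.inl e.1.2 := by
  simp [pathVertex]

theorem pathVertex_ne (e : Edge Y) {i : ℕ} (hi : i ≤ n e) :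
    pathVertex Y n e i ≠ pathVertex Y n e (i + 1) := by
  rcases i with _ | i
  · rw [pathVertex_zero]
    by_cases h : 0 < n e
    · rw [pathVertex_inner e ⟨0, h⟩]
      simp
    · have h0 : n e = 0 := by omega
      have h1 := pathVertex_last (n := n) e
      rw [h0] at h1
      rw [h1]
      intro h2
      exact e.2.1.ne (Sum.inl.inj h2)
  · have h : i < n e := hi
    rw [pathVertex_inner e ⟨i, h⟩]
    by_cases h' : i + 1 < n e
    · rw [pathVertex_inner e ⟨i + 1, h'⟩]
      intro h2
      have h3 := Sum.inr.inj h2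
      have h4 := eq_of_heq (Sigma.mk.inj h3).2
      have h5 := congrArg Fin.val h4
      simp at h5
    · have h0 : n e = i + 1 := by omega
      have h1 := pathVertex_last (n := n) e
      rw [h0] at h1
      rw [h1]
      simp

theorem adj_path (e : Edge Y) {i : ℕ} (hi : i ≤ n e) :
    (subdivision Y n).Adj (pathVertex Y n e i) (pathVertex Y n e (i + 1)) := by
  rw [subdivision, SimpleGraph.fromRel_adj]
  exact ⟨pathVertex_ne e hi, Or.inl ⟨e, i, hi, rfl, rfl⟩⟩

/-- walking along an initial piece of a path -/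
theorem reach_back (T : Set (SubVertex Y n)) (e : Edge Y) :
    ∀ (j : ℕ) (_ : j ≤ n e + 1) (h : ∀ i ≤ j, pathVertex Y n e i ∈ T),
      ((subdivision Y n).induce T).Reachable ⟨pathVertex Y n e 0, h 0 (Nat.zero_le _)⟩
        ⟨pathVertex Y n e j, h j le_rfl⟩
  | 0, _, _ => SimpleGraph.Reachable.refl _
  | j + 1, hj, h => by
    have h1 := reach_back T e j (by omega) (fun i hi => h i (by omega))
    refine h1.trans (SimpleGraph.Adj.reachable ?_)
    exact adj_path e (by omega)

/-- walking along a final piece of a path -/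
theorem reach_forth (T : Set (SubVertex Y n)) (e : Edge Y) :
    ∀ (d j : ℕ) (hd : j + d = n e + 1) (h : ∀ i, j ≤ i → i ≤ n e + 1 → pathVertex Y n e i ∈ T),
      ((subdivision Y n).induce T).Reachable ⟨pathVertex Y n e j, h j le_rfl (by omega)⟩
        ⟨pathVertex Y n e (n e + 1), h _ (by omega) le_rfl⟩
  | 0, j, hd, h => by
    have : j = n e + 1 := by omega
    subst this
    exact SimpleGraph.Reachable.refl _
  | d + 1, j, hd, h => by
    have h1 := reach_forth T e d (j + 1) (by omega) (fun i hi hi' => h i (by omega) hi')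
    refine SimpleGraph.Reachable.trans (SimpleGraph.Adj.reachable ?_) h1
    exact adj_path e (by omega)

/-- A vertex set containing all branch vertices, whose complete paths join the branch vertices
connectedly, and which together with every inner vertex contains one of the two pieces of its
path, is connected. -/
theorem connected_of (Z : SimpleGraph W) (hZ : Z.Connected)
    (T : Set (SubVertex Y n)) (hb : ∀ w, Sum.inl w ∈ T)
    (hs : ∀ u v, Z.Adj u v → u < v → ∃ e : Edge Y, e.1 = (u, v) ∧
      ∀ i : Fin (n e), Sum.inr ⟨e, i⟩ ∈ T)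
    (hp : ∀ (e : Edge Y) (i : Fin (n e)), Sum.inr ⟨e, i⟩ ∈ T →
      (∀ j : Fin (n e), j < i → Sum.inr ⟨e, j⟩ ∈ T) ∨ (∀ j : Fin (n e), i < j → Sum.inr ⟨e, j⟩ ∈ T)) :
    ((⊤ : (subdivision Y n).Subgraph).induce T).Connected := by
  rw [SimpleGraph.Subgraph.connected_iff']
  suffices key : ((subdivision Y n).induce T).Connected by
    have h := SimpleGraph.induce_eq_coe_induce_top (G := subdivision Y n) T
    rw [h] at key
    exact key
  rw [SimpleGraph.connected_iff_exists_forall_reachable]
  -- membership of path vertices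
  have hmem : ∀ (e : Edge Y) (i : ℕ), i ≤ n e + 1 →
      (∀ h : i - 1 < n e, 0 < i → Sum.inr ⟨e, ⟨i - 1, h⟩⟩ ∈ T) → pathVertex Y n e i ∈ T := by
    intro e i hi h
    rcases i with _ | i
    · exact hb _
    · by_cases h' : i < n e
      · rw [pathVertex_inner e ⟨i, h'⟩]
        exact h h' (Nat.succ_pos _)
      · have : i = n e := by omega
        subst this
        rw [pathVertex_last]
        exact hb _
  obtain ⟨o⟩ := hZ.nonempty
  refine ⟨⟨Sum.inl o, hb o⟩, ?_⟩
  have step : ∀ u v, Z.Adj u v → u < v →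
      ((subdivision Y n).induce T).Reachable ⟨Sum.inl u, hb u⟩ ⟨Sum.inl v, hb v⟩ := by
    intro u v huv hlt
    obtain ⟨e, he, hi⟩ := hs u v huv hlt
    have hall : ∀ i ≤ n e + 1, pathVertex Y n e i ∈ T := fun i hi' =>
      hmem e i hi' (fun h' _ => hi ⟨i - 1, h'⟩)
    have h1 := reach_back T e (n e + 1) le_rfl hall
    have h2 : (⟨pathVertex Y n e (n e + 1), hall _ le_rfl⟩ : T) = ⟨Sum.inl v, hb v⟩ :=
      Subtype.ext ((pathVertex_last e).trans (by rw [he]))
    have h3 : (⟨pathVertex Y n e 0, hall _ (Nat.zero_le _)⟩ : T) = ⟨Sum.inl u, hb u⟩ :=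
      Subtype.ext ((pathVertex_zero e).trans (by rw [he]))
    rw [h2, h3] at h1
    exact h1
  have branch : ∀ w, ((subdivision Y n).induce T).Reachable ⟨Sum.inl o, hb o⟩ ⟨Sum.inl w, hb w⟩ := by
    intro w
    obtain ⟨p⟩ := hZ.preconnected o w
    induction p with
    | nil => exact SimpleGraph.Reachable.refl _
    | cons h p ih =>
      rename_i a b c
      refine SimpleGraph.Reachable.trans ?_ ih
      rcases lt_or_gt_of_ne h.ne with hlt | hlt
      · exact step a b h hlt
      · exact (step b a h.symm hlt).symm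
  rintro ⟨w, hw⟩
  rcases w with w | ⟨e, i⟩
  · exact branch w
  · rcases hp e i hw with h | h
    · have hall : ∀ j ≤ (i : ℕ) + 1, pathVertex Y n e j ∈ T := by
        intro j hj
        refine hmem e j (by have := i.2; omega) (fun h' h0 => ?_)
        rcases Nat.lt_or_ge (j - 1) (i : ℕ) with hlt | hge
        · exact h ⟨j - 1, h'⟩ hlt
        · have : (⟨j - 1, h'⟩ : Fin (n e)) = i := Fin.ext (by simp; omega)
          rw [this]
          exact hw
      have h1 := reach_back T e ((i : ℕ) + 1) (by have := i.2; omega) hall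
      have h2 : (⟨pathVertex Y n e ((i : ℕ) + 1), hall _ le_rfl⟩ : T) = ⟨Sum.inr ⟨e, i⟩, hw⟩ :=
        Subtype.ext (pathVertex_inner e i)
      rw [h2] at h1
      exact (branch e.1.1).trans h1
    · have hall : ∀ j, (i : ℕ) + 1 ≤ j → j ≤ n e + 1 → pathVertex Y n e j ∈ T := by
        intro j hj hj'
        refine hmem e j hj' (fun h' h0 => ?_)
        rcases Nat.lt_or_ge (i : ℕ) (j - 1) with hlt | hge
        · exact h ⟨j - 1, h'⟩ hlt
        · have : (⟨j - 1, h'⟩ : Fin (n e)) = i := Fin.ext (by simp; omega)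
          rw [this]
          exact hw
      have h1 := reach_forth T e (n e - i) ((i : ℕ) + 1) (by have := i.2; omega) hall
      have h2 : (⟨pathVertex Y n e ((i : ℕ) + 1), hall _ le_rfl (by have := i.2; omega)⟩ : T) =
          ⟨Sum.inr ⟨e, i⟩, hw⟩ := Subtype.ext (pathVertex_inner e i)
      have h3 : (⟨pathVertex Y n e (n e + 1), hall _ (by have := i.2; omega) le_rfl⟩ : T) =
          ⟨Sum.inl e.1.2, hb _⟩ := Subtype.ext (pathVertex_last e)
      rw [h2, h3] at h1
      exact (branch e.1.2).trans h1.symm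

/-- an initial piece of a path, without its last vertex, is connected -/
theorem initial_connected (e : Edge Y) :
    ((⊤ : (subdivision Y n).Subgraph).induce {x | ∃ i ≤ n e, x = pathVertex Y n e i}).Connected := by
  rw [SimpleGraph.Subgraph.connected_iff']
  suffices key : ((subdivision Y n).induce {x | ∃ i ≤ n e, x = pathVertex Y n e i}).Connected by
    have h := SimpleGraph.induce_eq_coe_induce_top (G := subdivision Y n)
      {x | ∃ i ≤ n e, x = pathVertex Y n e i}
    rw [h] at key
    exact key
  rw [SimpleGraph.connected_iff_exists_forall_reachable]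
  refine ⟨⟨pathVertex Y n e 0, 0, Nat.zero_le _, rfl⟩, ?_⟩
  rintro ⟨w, i, hi, rfl⟩
  have hall : ∀ j ≤ i, pathVertex Y n e j ∈ {x | ∃ i ≤ n e, x = pathVertex Y n e i} :=
    fun j hj => ⟨j, by omega, rfl⟩
  exact reach_back _ e i (by omega) hall

end Pool.Agent.Y768.UG
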