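import Mathlib

/-!
# Subdivisions and intersection graphs of connected subgraphs
-/

namespace Pool.Agent.Y768.UG

/-- the edges of `Y`, each listed once, with the smaller end first -/
abbrev Edge {W : Type} [LinearOrder W] (Y : SimpleGraph W) : Type :=
  {e : W × W // e.1 < e.2 ∧ Y.Adj e.1 e.2}

/-- the vertices of the subdivision: the old vertices, and `n e` new vertices for each edge `e` -/
abbrev SubVertex {W : Type} [LinearOrder W] (Y : SimpleGraph W) (n : Edge Y → ℕ) : Type :=
  W ⊕ (Σ e : Edge Y, Fin (n e))

/-- the `i`-th vertex of the path which replaces the edge `e`, for `0 ≤ i ≤ n e + 1`: it starts at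
the smaller end of `e`, runs through the `n e` new vertices of `e` and ends at the larger end -/
def pathVertex {W : Type} [LinearOrder W] (Y : SimpleGraph W) (n : Edge Y → ℕ) (e : Edge Y) :
    ℕ → SubVertex Y n
  | 0 => Sum.inl e.1.1
  | i + 1 => if h : i < n e then Sum.inr ⟨e, ⟨i, h⟩⟩ else Sum.inl e.1.2

/-- the subdivision of `Y` in which each edge `e` is replaced by a path with `n e` internal
vertices, all of them new -/
def subdivision {W : Type} [LinearOrder W] (Y : SimpleGraph W) (n : Edge Y → ℕ) :
    SimpleGraph (SubVertex Y n) :=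
  SimpleGraph.fromRel fun x y =>
    ∃ e : Edge Y, ∃ i ≤ n e, x = pathVertex Y n e i ∧ y = pathVertex Y n e (i + 1)

/-- `X` is the intersection graph of a family of connected subgraphs of a subdivision of `Y` -/
def IsIntersectionGraphOver {W : Type} [LinearOrder W] (Y : SimpleGraph W) {V : Type}
    (X : SimpleGraph V) : Prop :=
  ∃ (n : Edge Y → ℕ) (S : V → (subdivision Y n).Subgraph),
    (∀ v, (S v).Connected) ∧
    ∀ u v, X.Adj u v ↔ u ≠ v ∧ ((S u).verts ∩ (S v).verts).Nonempty

/-- every finite group is isomorphic to the automorphism group of a finite graph which is the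
intersection graph of connected subgraphs of a subdivision of `Y` -/
def IsUniversalOver {W : Type} [LinearOrder W] (Y : SimpleGraph W) : Prop :=
  ∀ (G : Type) [Group G] [Finite G], ∃ (k : ℕ) (X : SimpleGraph (Fin k)),
    IsIntersectionGraphOver Y X ∧ Nonempty ((X ≃g X) ≃* G)

end Pool.Agent.Y768.UG
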