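import Pool.Agent.W125.DimH

/-!
# A split graph with a prescribed automorphism group

The clique consists of the incident pairs of a bipartite incidence relation and one marker, the
independent set consists of the two sides of the relation.  An incident pair is adjacent to all
elements of the two sides except its own two, and the marker is adjacent to the left side only.
-/

namespace Pool.Agent.Y768.UG

open Pool.Agent.W125.Dim

/-- the left side of the incidence relation -/
abbrev LL (G : Type) : Type := (G × G) ⊕ Fin (Nat.card G + 1)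

/-- the right side of the incidence relation -/
abbrev RR (G : Type) : Type := G ⊕ (G ⊕ G)

/-- incident pairs -/
abbrev II (G : Type) [Group G] [Finite G] : Type := {e : LL G × RR G // GA G e.1 e.2}

/-- vertices of the split graph -/
inductive VV (G : Type) [Group G] [Finite G] : Type
  | z : VV G
  | e : II G → VV G
  | l : LL G → VV G
  | r : RR G → VV G

variable (G : Type) [Group G] [Finite G]

/-- the clique side -/
def VV.Cl : VV G → Prop
  | .z => True
  | .e _ => True
  | .l _ => False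
  | .r _ => False

/-- adjacency from the clique side to the independent side -/
def VV.Cr : VV G → VV G → Prop
  | .z, .l _ => True
  | .e a, .l x => a.1.1 ≠ x
  | .e a, .r y => a.1.2 ≠ y
  | _, _ => False

/-- the split graph -/
def SG : SimpleGraph (VV G) where
  Adj a b := (VV.Cl G a ∧ VV.Cl G b ∧ a ≠ b) ∨ VV.Cr G a b ∨ VV.Cr G b a
  symm := ⟨by
    rintro a b (⟨h1, h2, h3⟩ | h | h)
    · exact Or.inl ⟨h2, h1, h3.symm⟩
    · exact Or.inr (Or.inr h)
    · exact Or.inr (Or.inl h)⟩
  loopless := ⟨by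
    rintro a (⟨-, -, h⟩ | h | h)
    · exact h rfl
    · cases a <;> exact h
    · cases a <;> exact h⟩

variable {G}

theorem adj_zz : ¬ (SG G).Adj .z .z := (SG G).loopless.irrefl _

theorem adj_ze (a : II G) : (SG G).Adj .z (.e a) :=
  Or.inl ⟨trivial, trivial, by simp⟩

theorem adj_zl (x : LL G) : (SG G).Adj .z (.l x) := Or.inr (Or.inl trivial)

theorem adj_zr (y : RR G) : ¬ (SG G).Adj .z (.r y) := by
  rintro (⟨-, h, -⟩ | h | h) <;> exact h

theorem adj_ee (a b : II G) : (SG G).Adj (.e a) (.e b) ↔ a ≠ b := by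
  constructor
  · rintro (⟨-, -, h⟩ | h | h)
    · exact fun h' => h (by rw [h'])
    · exact h.elim
    · exact h.elim
  · intro h
    exact Or.inl ⟨trivial, trivial, fun h' => h (VV.e.inj h')⟩

theorem adj_el (a : II G) (x : LL G) : (SG G).Adj (.e a) (.l x) ↔ a.1.1 ≠ x := by
  constructor
  · rintro (⟨-, h, -⟩ | h | h)
    · exact h.elim
    · exact h
    · exact h.elim
  · intro h
    exact Or.inr (Or.inl h)

theorem adj_er (a : II G) (y : RR G) : (SG G).Adj (.e a) (.r y) ↔ a.1.2 ≠ y := by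
  constructor
  · rintro (⟨-, h, -⟩ | h | h)
    · exact h.elim
    · exact h
    · exact h.elim
  · intro h
    exact Or.inr (Or.inl h)

theorem adj_indep {a b : VV G} (ha : ¬ VV.Cl G a) (hb : ¬ VV.Cl G b) : ¬ (SG G).Adj a b := by
  rintro (⟨h, -, -⟩ | h | h)
  · exact ha h
  · cases a
    · exact ha trivial
    · exact ha trivial
    · exact h
    · exact h
  · cases b
    · exact hb trivial
    · exact hb trivial
    · exact h
    · exact h

theorem adj_cl {a b : VV G} (ha : VV.Cl G a) (hb : VV.Cl G b) (h : a ≠ b) : (SG G).Adj a b :=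
  Or.inl ⟨ha, hb, h⟩

/-- the neighbourhood of `v` is a clique -/
def Simpl (v : VV G) : Prop :=
  ∀ a b, (SG G).Adj v a → (SG G).Adj v b → a ≠ b → (SG G).Adj a b

theorem simpl_of (v : VV G) (hv : ¬ VV.Cl G v) : Simpl v := by
  intro a b ha hb hab
  have h1 : VV.Cl G a := by
    by_contra h
    exact adj_indep hv h ha
  have h2 : VV.Cl G b := by
    by_contra h
    exact adj_indep hv h hb
  exact adj_cl h1 h2 hab

omit [Finite G] in
/-- there is another vertex on the right -/
theorem exists_two (y : RR G) : ∃ y', y ≠ y' := by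
  match y with
  | Sum.inl _ => exact ⟨Sum.inr (Sum.inl 1), by simp⟩
  | Sum.inr _ => exact ⟨Sum.inl 1, by simp⟩

theorem not_simpl_of (v : VV G) (hv : VV.Cl G v) : ¬ Simpl v := by
  intro h
  cases v with
  | z =>
    obtain ⟨y, hy⟩ := GA_left G (Sum.inl (1, 1))
    let a : II G := ⟨(Sum.inl (1, 1), y), hy⟩
    have h1 := h (.e a) (.l (Sum.inl (1, 1))) (adj_ze a) (adj_zl _) (by simp)
    exact (adj_el a _).1 h1 rfl
  | e a =>
    obtain ⟨y, hy⟩ := exists_two a.1.2
    have h1 := h .z (.r y) (adj_ze a).symm ((adj_er a y).2 hy) (by simp)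
    exact adj_zr y h1
  | l x => exact hv
  | r y => exact hv

theorem simpl_iff (v : VV G) : Simpl v ↔ ¬ VV.Cl G v :=
  ⟨fun h h' => not_simpl_of v h' h, simpl_of v⟩

theorem simpl_iso (φ : SG G ≃g SG G) {v : VV G} (h : Simpl v) : Simpl (φ v) := by
  intro a b ha hb hab
  obtain ⟨a', rfl⟩ := φ.surjective a
  obtain ⟨b', rfl⟩ := φ.surjective b
  rw [φ.map_adj_iff] at ha hb ⊢
  exact h a' b' ha hb (fun h => hab (by rw [h]))

theorem cl_iso (φ : SG G ≃g SG G) (v : VV G) : VV.Cl G (φ v) ↔ VV.Cl G v := by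
  rw [← not_iff_not, ← simpl_iff, ← simpl_iff]
  refine ⟨fun h => ?_, simpl_iso φ⟩
  have := simpl_iso φ.symm h
  rwa [RelIso.symm_apply_apply] at this

/-- the marker is fixed -/
theorem map_z (φ : SG G ≃g SG G) : φ .z = .z := by
  have hcl : VV.Cl G (φ .z) := (cl_iso φ .z).2 trivial
  match hv : φ .z with
  | .z => rfl
  | .l x => rw [hv] at hcl; exact hcl.elim
  | .r y => rw [hv] at hcl; exact hcl.elim
  | .e a =>
    exfalso
    have key : ∀ y : RR G, φ (.r y) = .l a.1.1 ∨ φ (.r y) = .r a.1.2 := by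
      intro y
      have h1 : ¬ (SG G).Adj (φ .z) (φ (.r y)) := by
        rw [φ.map_adj_iff]
        exact adj_zr y
      rw [hv] at h1
      have h2 : ¬ VV.Cl G (φ (.r y)) := fun h => (cl_iso φ (.r y)).1 h
      match hw : φ (.r y) with
      | .z => rw [hw] at h2; exact absurd trivial h2
      | .e b => rw [hw] at h2; exact absurd trivial h2
      | .l x =>
        rw [hw, adj_el, not_not] at h1
        left
        rw [h1]
      | .r y' =>
        rw [hw, adj_er, not_not] at h1
        right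
        rw [h1]
    have inj : ∀ y y' : RR G, φ (.r y) = φ (.r y') → y = y' := fun y y' h =>
      VV.r.inj (φ.injective h)
    have h01 : (Sum.inl 1 : RR G) ≠ Sum.inr (Sum.inl 1) := by simp
    have h02 : (Sum.inl 1 : RR G) ≠ Sum.inr (Sum.inr 1) := by simp
    have h12 : (Sum.inr (Sum.inl 1) : RR G) ≠ Sum.inr (Sum.inr 1) := by simp
    rcases key (Sum.inl 1) with h0 | h0 <;> rcases key (Sum.inr (Sum.inl 1)) with h1 | h1 <;>
      rcases key (Sum.inr (Sum.inr 1)) with h2 | h2
    · exact h01 (inj _ _ (h0.trans h1.symm))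
    · exact h01 (inj _ _ (h0.trans h1.symm))
    · exact h02 (inj _ _ (h0.trans h2.symm))
    · exact h12 (inj _ _ (h1.trans h2.symm))
    · exact h12 (inj _ _ (h1.trans h2.symm))
    · exact h02 (inj _ _ (h0.trans h2.symm))
    · exact h01 (inj _ _ (h0.trans h1.symm))
    · exact h01 (inj _ _ (h0.trans h1.symm))

theorem map_l (φ : SG G ≃g SG G) (x : LL G) : ∃ x', φ (.l x) = .l x' := by
  have h2 : ¬ VV.Cl G (φ (.l x)) := fun h => (cl_iso φ (.l x)).1 h
  have h3 : (SG G).Adj (φ .z) (φ (.l x)) := φ.map_adj_iff.2 (adj_zl x)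
  rw [map_z] at h3
  match hw : φ (.l x) with
  | .z => rw [hw] at h2; exact absurd trivial h2
  | .e b => rw [hw] at h2; exact absurd trivial h2
  | .l x' => exact ⟨x', rfl⟩
  | .r y' => rw [hw] at h3; exact absurd h3 (adj_zr y')

theorem map_r (φ : SG G ≃g SG G) (y : RR G) : ∃ y', φ (.r y) = .r y' := by
  have h2 : ¬ VV.Cl G (φ (.r y)) := fun h => (cl_iso φ (.r y)).1 h
  have h3 : ¬ (SG G).Adj (φ .z) (φ (.r y)) := fun h => adj_zr y (φ.map_adj_iff.1 h)
  rw [map_z] at h3
  match hw : φ (.r y) with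
  | .z => rw [hw] at h2; exact absurd trivial h2
  | .e b => rw [hw] at h2; exact absurd trivial h2
  | .l x' => rw [hw] at h3; exact absurd (adj_zl x') h3
  | .r y' => exact ⟨y', rfl⟩

theorem map_e (φ : SG G ≃g SG G) (a : II G) : ∃ a', φ (.e a) = .e a' := by
  have h2 : VV.Cl G (φ (.e a)) := (cl_iso φ (.e a)).2 trivial
  match hw : φ (.e a) with
  | .z =>
    rw [← map_z φ] at hw
    have := φ.injective hw
    cases this
  | .e b => exact ⟨b, rfl⟩
  | .l x' => rw [hw] at h2; exact h2.elim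
  | .r y' => rw [hw] at h2; exact h2.elim

/-- automorphisms of the split graph come from automorphisms of the incidence relation -/
theorem iso_split (φ : SG G ≃g SG G) :
    ∃ (α : LL G ≃ LL G) (β : RR G ≃ RR G) (h : ∀ x y, GA G x y ↔ GA G (α x) (β y)),
      (∀ x, φ (.l x) = .l (α x)) ∧ (∀ y, φ (.r y) = .r (β y)) ∧
      (∀ a : II G, φ (.e a) = .e ⟨(α a.1.1, β a.1.2), (h _ _).1 a.2⟩) := by
  choose a ha using map_l φ
  choose b hb using map_r φ
  choose c hc using map_e φ
  choose a' ha' using map_l φ.symm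
  choose b' hb' using map_r φ.symm
  choose c' hc' using map_e φ.symm
  have haa : ∀ k, a' (a k) = k := by
    intro k
    have h := ha' (a k)
    rw [← ha k, RelIso.symm_apply_apply] at h
    exact (VV.l.inj h).symm
  have haa' : ∀ k, a (a' k) = k := by
    intro k
    have h := ha (a' k)
    rw [← ha' k, RelIso.apply_symm_apply] at h
    exact (VV.l.inj h).symm
  have hbb : ∀ k, b' (b k) = k := by
    intro k
    have h := hb' (b k)
    rw [← hb k, RelIso.symm_apply_apply] at h
    exact (VV.r.inj h).symm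
  have hbb' : ∀ k, b (b' k) = k := by
    intro k
    have h := hb (b' k)
    rw [← hb' k, RelIso.apply_symm_apply] at h
    exact (VV.r.inj h).symm
  have hce : ∀ s : II G, (c s).1 = (a s.1.1, b s.1.2) := by
    intro s
    have h1 : (SG G).Adj (φ (.e s)) (φ (.l s.1.1)) ↔ (SG G).Adj (.e s) (.l s.1.1) :=
      φ.map_adj_iff
    rw [hc, ha, adj_el, adj_el] at h1
    have h1' : (c s).1.1 = a s.1.1 := by
      by_contra h
      exact h1.1 h rfl
    have h2 : (SG G).Adj (φ (.e s)) (φ (.r s.1.2)) ↔ (SG G).Adj (.e s) (.r s.1.2) :=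
      φ.map_adj_iff
    rw [hc, hb, adj_er, adj_er] at h2
    have h2' : (c s).1.2 = b s.1.2 := by
      by_contra h
      exact h2.1 h rfl
    exact Prod.ext h1' h2'
  have hce' : ∀ s : II G, (c' s).1 = (a' s.1.1, b' s.1.2) := by
    intro s
    have h1 : (SG G).Adj (φ.symm (.e s)) (φ.symm (.l s.1.1)) ↔ (SG G).Adj (.e s) (.l s.1.1) :=
      φ.symm.map_adj_iff
    rw [hc', ha', adj_el, adj_el] at h1
    have h1' : (c' s).1.1 = a' s.1.1 := by
      by_contra h
      exact h1.1 h rfl
    have h2 : (SG G).Adj (φ.symm (.e s)) (φ.symm (.r s.1.2)) ↔ (SG G).Adj (.e s) (.r s.1.2) :=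
      φ.symm.map_adj_iff
    rw [hc', hb', adj_er, adj_er] at h2
    have h2' : (c' s).1.2 = b' s.1.2 := by
      by_contra h
      exact h2.1 h rfl
    exact Prod.ext h1' h2'
  have hG : ∀ x y, GA G x y ↔ GA G (a x) (b y) := by
    intro x y
    constructor
    · intro h
      have h1 := (c ⟨(x, y), h⟩).2
      rw [hce] at h1
      exact h1
    · intro h
      have h1 := (c' ⟨(a x, b y), h⟩).2
      rw [hce'] at h1
      have h2 : GA G (a' (a x)) (b' (b y)) := h1
      rwa [haa, hbb] at h2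
  refine ⟨⟨a, a', haa, haa'⟩, ⟨b, b', hbb, hbb'⟩, hG, ha, hb, fun s => ?_⟩
  rw [hc]
  congr 1
  exact Subtype.ext (hce s)

/-- the action on vertices -/
def acV (γ : G) : VV G → VV G
  | .z => .z
  | .e a => .e ⟨(eL γ a.1.1, eR γ a.1.2), (GA_tl γ _ _).1 a.2⟩
  | .l x => .l (eL γ x)
  | .r y => .r (eR γ y)

theorem acV_mul (γ δ : G) (v : VV G) : acV (γ * δ) v = acV γ (acV δ v) := by
  cases v with
  | z => rfl
  | e a =>
    show VV.e _ = VV.e _
    congr 1
    exact Subtype.ext (Prod.ext (tlL_mul γ δ a.1.1) (tlR_mul γ δ a.1.2))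
  | l x => exact congrArg VV.l (tlL_mul γ δ x)
  | r y => exact congrArg VV.r (tlR_mul γ δ y)

theorem acV_one (v : VV G) : acV (1 : G) v = v := by
  cases v with
  | z => rfl
  | e a =>
    show VV.e _ = VV.e _
    congr 1
    exact Subtype.ext (Prod.ext (tlL_one a.1.1) (tlR_one a.1.2))
  | l x => exact congrArg VV.l (tlL_one x)
  | r y => exact congrArg VV.r (tlR_one y)

theorem acV_cl (γ : G) (v : VV G) : VV.Cl G (acV γ v) ↔ VV.Cl G v := by
  cases v <;> exact Iff.rfl

theorem acV_cr (γ : G) (v w : VV G) : VV.Cr G (acV γ v) (acV γ w) ↔ VV.Cr G v w := by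
  cases v <;> cases w <;> try exact Iff.rfl
  · rename_i a x
    show eL γ a.1.1 ≠ eL γ x ↔ a.1.1 ≠ x
    rw [ne_eq, ne_eq, (eL γ).apply_eq_iff_eq]
  · rename_i a x
    show eR γ a.1.2 ≠ eR γ x ↔ a.1.2 ≠ x
    rw [ne_eq, ne_eq, (eR γ).apply_eq_iff_eq]

/-- the action of the group -/
def ac (γ : G) : SG G ≃g SG G where
  toFun := acV γ
  invFun := acV γ⁻¹
  left_inv v := by rw [← acV_mul, inv_mul_cancel, acV_one]
  right_inv v := by rw [← acV_mul, mul_inv_cancel, acV_one]
  map_rel_iff' := by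
    intro v w
    have hinj : acV γ v ≠ acV γ w ↔ v ≠ w := by
      constructor
      · intro h h'
        exact h (by rw [h'])
      · intro h h'
        apply h
        have := congrArg (acV γ⁻¹) h'
        rwa [← acV_mul, ← acV_mul, inv_mul_cancel, acV_one, acV_one] at this
    show (VV.Cl G (acV γ v) ∧ VV.Cl G (acV γ w) ∧ acV γ v ≠ acV γ w) ∨
        VV.Cr G (acV γ v) (acV γ w) ∨ VV.Cr G (acV γ w) (acV γ v) ↔
      (VV.Cl G v ∧ VV.Cl G w ∧ v ≠ w) ∨ VV.Cr G v w ∨ VV.Cr G w v
    rw [acV_cl, acV_cl, hinj, acV_cr, acV_cr]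

theorem ac_bijective : Function.Bijective (ac : G → (SG G ≃g SG G)) := by
  constructor
  · intro γ δ h
    have h1 : ac γ (.r (Sum.inl 1)) = ac δ (.r (Sum.inl 1)) := by rw [h]
    have h2 : (Sum.inl (γ * 1) : RR G) = Sum.inl (δ * 1) := VV.r.inj h1
    have h3 := Sum.inl.inj h2
    rwa [mul_one, mul_one] at h3
  · intro φ
    obtain ⟨α, β, h, h1, h2, h3⟩ := iso_split φ
    obtain ⟨γ, h4, h5⟩ := GA_rigid α β h
    refine ⟨γ, ?_⟩
    have e1 : α = eL γ := Equiv.ext h4
    have e2 : β = eR γ := Equiv.ext h5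
    subst e1; subst e2
    refine RelIso.ext fun v => ?_
    cases v with
    | z => exact (map_z φ).symm
    | e a => rw [h3]; rfl
    | l x => rw [h1]; rfl
    | r y => rw [h2]; rfl

theorem ac_mul (γ δ : G) : ac (γ * δ) = ac γ * ac δ :=
  RelIso.ext fun v => acV_mul γ δ v

theorem aut_SG (G : Type) [Group G] [Finite G] : Nonempty ((SG G ≃g SG G) ≃* G) :=
  ⟨(MulEquiv.ofBijective (⟨⟨ac, by
    have h := ac_mul (1 : G) 1
    rw [mul_one] at h
    exact (mul_eq_left (a := ac (1 : G))).1 h.symm⟩, ac_mul⟩ : G →* _) ac_bijective).symm⟩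

end Pool.Agent.Y768.UG
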