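import Pool.Agent.Y768.UG.Conn
import Pool.Agent.Y768.UG.Split

/-!
# Every finite group is the automorphism group of an intersection graph over `Y`, for every
connected graph `Y` with more edges than vertices
-/

namespace Pool.Agent.Y768.UG

open Pool.Agent.W125.Dim

section rep

variable {W : Type} [LinearOrder W] {Y : SimpleGraph W} (E1 E2 : Edge Y) (hE : E1 ≠ E2)
variable (G : Type) [Group G] [Finite G]

/-- every edge gets this many new vertices -/
noncomputable abbrev MM : ℕ := Nat.card (LL G ⊕ RR G)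

/-- number of a vertex of the independent side -/
noncomputable def num (x : LL G ⊕ RR G) : Fin (MM G) := Finite.equivFin _ x

theorem num_inj {x y : LL G ⊕ RR G} (h : num G x = num G y) : x = y :=
  (Finite.equivFin _).injective h

/-- the new vertex which represents a left vertex -/
noncomputable def pl (x : LL G) : SubVertex Y (fun _ => MM G) := Sum.inr ⟨E1, num G (Sum.inl x)⟩

/-- the new vertex which represents a right vertex -/
noncomputable def pr (y : RR G) : SubVertex Y (fun _ => MM G) := Sum.inr ⟨E2, num G (Sum.inr y)⟩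

theorem pl_inj {x x' : LL G} (h : pl E1 G x = pl E1 G x') : x = x' := by
  have h1 := eq_of_heq (Sigma.mk.inj (Sum.inr.inj h)).2
  exact Sum.inl.inj (num_inj G h1)

theorem pr_inj {x x' : RR G} (h : pr E2 G x = pr E2 G x') : x = x' := by
  have h1 := eq_of_heq (Sigma.mk.inj (Sum.inr.inj h)).2
  exact Sum.inr.inj (num_inj G h1)

include hE in
theorem pl_ne_pr (x : LL G) (y : RR G) : pl E1 G x ≠ pr E2 G y := by
  intro h
  exact hE (Sigma.mk.inj (Sum.inr.inj h)).1

/-- the vertex set which represents a vertex of the split graph -/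
def TS : VV G → Set (SubVertex Y (fun _ => MM G))
  | .z => {x | ∃ i ≤ MM G, x = pathVertex Y (fun _ => MM G) E1 i}
  | .e a => {x | x ≠ pl E1 G a.1.1 ∧ x ≠ pr E2 G a.1.2}
  | .l x => {pl E1 G x}
  | .r y => {pr E2 G y}

/-- the subgraph which represents a vertex of the split graph -/
noncomputable def SS (v : VV G) : (subdivision Y (fun _ => MM G)).Subgraph :=
  match v with
  | .z => (⊤ : (subdivision Y (fun _ => MM G)).Subgraph).induce (TS E1 E2 G .z)
  | .e a => (⊤ : (subdivision Y (fun _ => MM G)).Subgraph).induce (TS E1 E2 G (.e a))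
  | .l x => (subdivision Y (fun _ => MM G)).singletonSubgraph (pl E1 G x)
  | .r y => (subdivision Y (fun _ => MM G)).singletonSubgraph (pr E2 G y)

theorem SS_verts (v : VV G) : (SS E1 E2 G v).verts = TS E1 E2 G v := by
  cases v <;> rfl

include hE in
theorem SS_connected (Z : SimpleGraph W) (hZ : Z.Connected) (hZY : Z ≤ Y)
    (h1 : ¬ Z.Adj E1.1.1 E1.1.2) (h2 : ¬ Z.Adj E2.1.1 E2.1.2) (v : VV G) :
    (SS E1 E2 G v).Connected := by
  cases v with
  | z => exact initial_connected E1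
  | l x => exact SimpleGraph.Subgraph.singletonSubgraph_connected
  | r y => exact SimpleGraph.Subgraph.singletonSubgraph_connected
  | e a =>
    refine connected_of Z hZ _ ?_ ?_ ?_
    · intro w
      exact ⟨by simp [pl], by simp [pr]⟩
    · intro u v huv hlt
      refine ⟨⟨(u, v), hlt, hZY huv⟩, rfl, fun i => ⟨?_, ?_⟩⟩
      · intro h
        have := (Sigma.mk.inj (Sum.inr.inj h)).1
        apply h1
        rw [← this]
        exact huv
      · intro h
        have := (Sigma.mk.inj (Sum.inr.inj h)).1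
        apply h2
        rw [← this]
        exact huv
    · intro e i hi
      by_contra hcon
      push Not at hcon
      obtain ⟨⟨j, hj, hj'⟩, j', hj1, hj1'⟩ := hcon
      have key : ∀ j : Fin (MM G), Sum.inr ⟨e, j⟩ ∉ TS E1 E2 G (.e a) →
          (e = E1 ∧ j = num G (Sum.inl a.1.1)) ∨ (e = E2 ∧ j = num G (Sum.inr a.1.2)) := by
        intro j hj
        by_contra hc
        push Not at hc
        apply hj
        constructor
        · intro h
          obtain ⟨h3, h4⟩ := Sigma.mk.inj (Sum.inr.inj h)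
          exact hc.1 h3 (eq_of_heq h4)
        · intro h
          obtain ⟨h3, h4⟩ := Sigma.mk.inj (Sum.inr.inj h)
          exact hc.2 h3 (eq_of_heq h4)
      have hlt : j < j' := lt_trans hj hj1
      rcases key j hj' with ⟨a1, a2⟩ | ⟨a1, a2⟩ <;> rcases key j' hj1' with ⟨b1, b2⟩ | ⟨b1, b2⟩
      · rw [a2, b2] at hlt
        exact lt_irrefl _ hlt
      · exact hE (a1.symm.trans b1)
      · exact hE (b1.symm.trans a1)
      · rw [a2, b2] at hlt
        exact lt_irrefl _ hlt

include hE in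
theorem TS_iff (u v : VV G) :
    (SG G).Adj u v ↔ u ≠ v ∧ (TS E1 E2 G u ∩ TS E1 E2 G v).Nonempty := by
  have hbr : ∀ (w : W) (a : II G), (Sum.inl w : SubVertex Y (fun _ => MM G)) ∈ TS E1 E2 G (.e a) :=
    fun w a => ⟨by simp [pl], by simp [pr]⟩
  have hz0 : (Sum.inl E1.1.1 : SubVertex Y (fun _ => MM G)) ∈ TS E1 E2 G .z :=
    ⟨0, Nat.zero_le _, rfl⟩
  have hzl : ∀ x : LL G, pl E1 G x ∈ TS E1 E2 G .z := by
    intro x
    refine ⟨(num G (Sum.inl x) : ℕ) + 1, (num G (Sum.inl x)).2, ?_⟩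
    exact (pathVertex_inner (n := fun _ => MM G) E1 (num G (Sum.inl x))).symm
  have hzr : ∀ y : RR G, pr E2 G y ∉ TS E1 E2 G .z := by
    rintro y ⟨i, hi, h⟩
    rcases i with _ | i
    · cases h
    · rw [pathVertex_inner (n := fun _ => MM G) E1 ⟨i, hi⟩] at h
      exact hE (Sigma.mk.inj (Sum.inr.inj h)).1.symm
  have hel : ∀ (a : II G) (x : LL G), pl E1 G x ∈ TS E1 E2 G (.e a) ↔ a.1.1 ≠ x := by
    intro a x
    constructor
    · rintro ⟨h, -⟩ h'
      exact h (by rw [h'])
    · intro h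
      exact ⟨fun h' => h (pl_inj E1 G h').symm, pl_ne_pr E1 E2 hE G _ _⟩
  have her : ∀ (a : II G) (y : RR G), pr E2 G y ∈ TS E1 E2 G (.e a) ↔ a.1.2 ≠ y := by
    intro a y
    constructor
    · rintro ⟨-, h⟩ h'
      exact h (by rw [h'])
    · intro h
      exact ⟨(pl_ne_pr E1 E2 hE G _ _).symm, fun h' => h (pr_inj E2 G h').symm⟩
  have sing : ∀ (p : SubVertex Y (fun _ => MM G)) (T : Set (SubVertex Y (fun _ => MM G))),
      (T ∩ {p}).Nonempty ↔ p ∈ T := fun p T => Set.inter_singleton_nonempty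
  have sing' : ∀ (p : SubVertex Y (fun _ => MM G)) (T : Set (SubVertex Y (fun _ => MM G))),
      ({p} ∩ T).Nonempty ↔ p ∈ T := fun p T => Set.singleton_inter_nonempty
  cases u with
  | z =>
    cases v with
    | z => exact iff_of_false adj_zz (fun h => h.1 rfl)
    | e a => exact iff_of_true (adj_ze a) ⟨by simp, _, hz0, hbr _ a⟩
    | l x => exact iff_of_true (adj_zl x) ⟨by simp, (sing _ _).2 (hzl x)⟩
    | r y => exact iff_of_false (adj_zr y) (fun h => hzr y ((sing _ _).1 h.2))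
  | e a =>
    cases v with
    | z => exact iff_of_true (adj_ze a).symm ⟨by simp, _, hbr _ a, hz0⟩
    | e b =>
      rw [adj_ee]
      constructor
      · intro h
        exact ⟨fun h' => h (VV.e.inj h'), _, hbr E1.1.1 a, hbr E1.1.1 b⟩
      · rintro ⟨h, -⟩ h'
        exact h (by rw [h'])
    | l x =>
      rw [adj_el]
      show _ ↔ _ ∧ (TS E1 E2 G (.e a) ∩ {pl E1 G x}).Nonempty
      rw [sing, hel]
      exact ⟨fun h => ⟨by simp, h⟩, fun h => h.2⟩
    | r y =>
      rw [adj_er]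
      show _ ↔ _ ∧ (TS E1 E2 G (.e a) ∩ {pr E2 G y}).Nonempty
      rw [sing, her]
      exact ⟨fun h => ⟨by simp, h⟩, fun h => h.2⟩
  | l x =>
    cases v with
    | z => exact iff_of_true (adj_zl x).symm ⟨by simp, (sing' _ _).2 (hzl x)⟩
    | e a =>
      rw [SimpleGraph.adj_comm, adj_el]
      show _ ↔ _ ∧ ({pl E1 G x} ∩ TS E1 E2 G (.e a)).Nonempty
      rw [sing', hel]
      exact ⟨fun h => ⟨by simp, h⟩, fun h => h.2⟩
    | l x' =>
      refine iff_of_false (adj_indep id id) ?_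
      rintro ⟨h, h'⟩
      have h2 : pl E1 G x ∈ ({pl E1 G x'} : Set _) := (sing' _ _).1 h'
      exact h (by rw [pl_inj E1 G h2])
    | r y =>
      refine iff_of_false (adj_indep id id) ?_
      rintro ⟨h, h'⟩
      have h2 : pl E1 G x ∈ ({pr E2 G y} : Set _) := (sing' _ _).1 h'
      exact pl_ne_pr E1 E2 hE G x y h2
  | r y =>
    cases v with
    | z => exact iff_of_false (fun h => adj_zr y h.symm) (fun h => hzr y ((sing' _ _).1 h.2))
    | e a =>
      rw [SimpleGraph.adj_comm, adj_er]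
      show _ ↔ _ ∧ ({pr E2 G y} ∩ TS E1 E2 G (.e a)).Nonempty
      rw [sing', her]
      exact ⟨fun h => ⟨by simp, h⟩, fun h => h.2⟩
    | l x =>
      refine iff_of_false (adj_indep id id) ?_
      rintro ⟨h, h'⟩
      have h2 : pr E2 G y ∈ ({pl E1 G x} : Set _) := (sing' _ _).1 h'
      exact pl_ne_pr E1 E2 hE G x y h2.symm
    | r y' =>
      refine iff_of_false (adj_indep id id) ?_
      rintro ⟨h, h'⟩
      have h2 : pr E2 G y ∈ ({pr E2 G y'} : Set _) := (sing' _ _).1 h'
      exact h (by rw [pr_inj E2 G h2])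

include hE in
theorem SG_over (Z : SimpleGraph W) (hZ : Z.Connected) (hZY : Z ≤ Y)
    (h1 : ¬ Z.Adj E1.1.1 E1.1.2) (h2 : ¬ Z.Adj E2.1.1 E2.1.2) :
    IsIntersectionGraphOver Y (SG G) := by
  refine ⟨fun _ => MM G, SS E1 E2 G, SS_connected E1 E2 hE G Z hZ hZY h1 h2, fun u v => ?_⟩
  rw [SS_verts, SS_verts]
  exact TS_iff E1 E2 hE G u v

end rep

/-- transport along isomorphisms -/
theorem IsIntersectionGraphOver.of_iso {W : Type} [LinearOrder W] {Y : SimpleGraph W}
    {V V' : Type} {X : SimpleGraph V} {X' : SimpleGraph V'} (e : X' ≃g X)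
    (h : IsIntersectionGraphOver Y X) : IsIntersectionGraphOver Y X' := by
  obtain ⟨n, S, h1, h2⟩ := h
  refine ⟨n, fun v => S (e v), fun v => h1 _, fun u v => ?_⟩
  rw [← e.map_adj_iff, h2, ne_eq, ne_eq, e.apply_eq_iff_eq]

instance VV.finite (G : Type) [Group G] [Finite G] : Finite (VV G) := by
  let f : VV G → Option (II G ⊕ (LL G ⊕ RR G)) := fun v => match v with
    | .z => none
    | .e a => some (Sum.inl a)
    | .l x => some (Sum.inr (Sum.inl x))
    | .r y => some (Sum.inr (Sum.inr y))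
  refine Finite.of_injective f ?_
  intro u v h
  cases u <;> cases v <;> simp_all [f]

/-- a connected graph with more edges than vertices has a connected spanning subgraph missing
two of its edges -/
theorem exists_spanning {W : Type} [LinearOrder W] [Finite W] (Y : SimpleGraph W)
    (hY : Y.Connected) (hc : Nat.card W < Nat.card Y.edgeSet) :
    ∃ (Z : SimpleGraph W) (E1 E2 : Edge Y), Z.Connected ∧ Z ≤ Y ∧ E1 ≠ E2 ∧
      ¬ Z.Adj E1.1.1 E1.1.2 ∧ ¬ Z.Adj E2.1.1 E2.1.2 := by
  obtain ⟨Z, hZY, hZ⟩ := hY.exists_isTree_le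
  have hcard := (SimpleGraph.isTree_iff_connected_and_card.1 hZ).2
  have hsub : Z.edgeSet ⊆ Y.edgeSet := SimpleGraph.edgeSet_subset_edgeSet.2 hZY
  have hfin : Y.edgeSet.Finite := Set.toFinite _
  have h2 : 2 ≤ (Y.edgeSet \ Z.edgeSet).ncard := by
    rw [Set.ncard_sdiff hsub (hfin.subset hsub)]
    rw [Nat.card_coe_set_eq] at hcard hc
    omega
  obtain ⟨s, hs, t, ht, hst⟩ := (Set.one_lt_ncard (hfin.subset Set.sdiff_subset)).1 h2
  have key : ∀ s : Sym2 W, s ∈ Y.edgeSet \ Z.edgeSet →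
      ∃ E : Edge Y, s = s(E.1.1, E.1.2) ∧ ¬ Z.Adj E.1.1 E.1.2 := by
    intro s hs
    induction s using Sym2.ind with
    | _ u v =>
      have h1 : Y.Adj u v := hs.1
      have h2 : ¬ Z.Adj u v := hs.2
      rcases lt_or_gt_of_ne h1.ne with h | h
      · exact ⟨⟨(u, v), h, h1⟩, rfl, h2⟩
      · exact ⟨⟨(v, u), h, h1.symm⟩, Sym2.eq_swap, fun h3 => h2 h3.symm⟩
  obtain ⟨E1, h1, h1'⟩ := key s hs
  obtain ⟨E2, h2, h2'⟩ := key t ht
  exact ⟨Z, E1, E2, hZ.1, hZY, fun h => hst (by rw [h1, h2, h]), h1', h2'⟩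

theorem universal {W : Type} [LinearOrder W] [Finite W] (Y : SimpleGraph W)
    (hY : Y.Connected) (hc : Nat.card W < Nat.card Y.edgeSet) (G : Type) [Group G] [Finite G] :
    ∃ (k : ℕ) (X : SimpleGraph (Fin k)),
      IsIntersectionGraphOver Y X ∧ Nonempty ((X ≃g X) ≃* G) := by
  obtain ⟨Z, E1, E2, hZ, hZY, hE, h1, h2⟩ := exists_spanning Y hY hc
  obtain ⟨n, ⟨f⟩⟩ := Finite.exists_equiv_fin (VV G)
  have i : (SG G).comap f.symm ≃g SG G := SimpleGraph.Iso.comap f.symm (SG G)
  obtain ⟨h⟩ := aut_SG G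
  exact ⟨n, (SG G).comap f.symm, (SG_over E1 E2 hE G Z hZ hZY h1 h2).of_iso i,
    ⟨(autCongr i.symm).symm.trans h⟩⟩

end Pool.Agent.Y768.UG
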